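import Mathlib

set_option autoImplicit false

open MeasureTheory

namespace Pool.Agent.Results.MP_eb4cdf_pr.BowlDisproof

/-- The three regimes: unlimited buffers (`b = ∞`), manufacturing blocking, communications
blocking. -/
inductive Regime
  | unlimited
  | manufacturing
  | communications

/-- Departure times `D i j` of job `i` from station `j` (both numbered from `1`; the value is `0`
if an index is `0`) in a line of `m` stations with common buffer size `b`, where `T i j` is the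
time for which job `i + 1` occupies station `j + 1`. Station `m` is never blocked. The term
`D (i - b - 1) (j + 1)` of the problem reads `dep (i - b) (j + 2)` for job `i + 1` and
station `j + 1`; the truncated subtraction gives index `0`, hence the value `0`, exactly when
the true index is not positive. -/
noncomputable def dep (r : Regime) (m b : ℕ) (T : ℕ → ℕ → ℝ) : ℕ → ℕ → ℝ
  | 0, _ => 0
  | _ + 1, 0 => 0
  | i + 1, j + 1 =>
    match r with
    | Regime.unlimited =>
        max (dep r m b T (i + 1) j) (dep r m b T i (j + 1)) + T i j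
    | Regime.manufacturing =>
        max (max (dep r m b T (i + 1) j + T i j) (dep r m b T i (j + 1) + T i j))
          (if j + 1 < m then dep r m b T (i - b) (j + 2) else 0)
    | Regime.communications =>
        max (max (dep r m b T (i + 1) j) (dep r m b T i (j + 1)))
          (if j + 1 < m then dep r m b T (i - b) (j + 2) else 0) + T i j
termination_by i j => (i, j)

/-- The makespan of `n` jobs for works `x i j` and speeds `s j`. -/
noncomputable def makespan (r : Regime) (n m b : ℕ) (s : Fin m → ℝ) (x : Fin n → Fin m → ℝ) : ℝ :=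
  dep r m b
    (fun i j => if h : i < n ∧ j < m then x ⟨i, h.1⟩ ⟨j, h.2⟩ / s ⟨j, h.2⟩ else 0) n m

/-- The expected makespan when the works are independent with common law `ν`. -/
noncomputable def expMakespan (r : Regime) (n m b : ℕ) (ν : Measure ℝ) (s : Fin m → ℝ) : ℝ :=
  ∫ x, makespan r n m b s x
    ∂(Measure.pi (fun _ : Fin n => Measure.pi (fun _ : Fin m => ν)))

/-- Speed allocations: positive speeds with sum `1`. -/
def IsAllocation (m : ℕ) (s : Fin m → ℝ) : Prop := (∀ j, 0 < s j) ∧ ∑ j, s j = 1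

/-- Bowl-shaped allocations: symmetric and nondecreasing on the first `⌈m/2⌉` stations. -/
def IsBowl (m : ℕ) (s : Fin m → ℝ) : Prop :=
  (∀ j, s j = s (Fin.rev j)) ∧ ∀ i j : Fin m, i ≤ j → (j : ℕ) < (m + 1) / 2 → s i ≤ s j

/-- Optimal allocations: minimisers of the expected makespan. -/
def IsOptimal (r : Regime) (n m b : ℕ) (ν : Measure ℝ) (s : Fin m → ℝ) : Prop :=
  IsAllocation m s ∧ ∀ s', IsAllocation m s' → expMakespan r n m b ν s ≤ expMakespan r n m b ν s'

/-- The statement of Q1. -/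
def BowlConjecture : Prop :=
  ∀ (n m : ℕ), 1 ≤ n → 1 ≤ m → ∀ (ν : Measure ℝ), IsProbabilityMeasure ν →
    ν (Set.Iio 0) = 0 → Integrable (fun x : ℝ => x) ν → ∀ (r : Regime) (b : ℕ),
      ∃ s, IsOptimal r n m b ν s ∧ IsBowl m s

lemma dep_zero_left (r : Regime) (m b : ℕ) (T : ℕ → ℕ → ℝ) (j : ℕ) : dep r m b T 0 j = 0 := by
  rw [dep]

lemma dep_zero_right (r : Regime) (m b : ℕ) (T : ℕ → ℕ → ℝ) (i : ℕ) : dep r m b T i 0 = 0 := by
  cases i with
  | zero => rw [dep]
  | succ i => rw [dep]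

lemma dep_comm (m b : ℕ) (T : ℕ → ℕ → ℝ) (i j : ℕ) :
    dep Regime.communications m b T (i + 1) (j + 1) =
      max (max (dep Regime.communications m b T (i + 1) j)
        (dep Regime.communications m b T i (j + 1)))
          (if j + 1 < m then dep Regime.communications m b T (i - b) (j + 2) else 0) + T i j := by
  rw [dep]

/-- The explicit form of the makespan of two jobs on five stations. -/
lemma dep25 (T : ℕ → ℕ → ℝ) (hT : ∀ i j, 0 ≤ T i j) :
    dep Regime.communications 5 0 T 2 5 =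
      max (max (max (max (T 0 0 + T 0 1 + T 1 0) (T 0 0 + T 0 1 + T 0 2) + T 1 1)
        (T 0 0 + T 0 1 + T 0 2 + T 0 3) + T 1 2) (T 0 0 + T 0 1 + T 0 2 + T 0 3 + T 0 4) + T 1 3)
        (T 0 0 + T 0 1 + T 0 2 + T 0 3 + T 0 4) + T 1 4 := by
  have h00 := hT 0 0
  have h01 := hT 0 1
  have h02 := hT 0 2
  have h03 := hT 0 3
  have h04 := hT 0 4
  have h10 := hT 1 0
  have h11 := hT 1 1
  have h12 := hT 1 2
  have h13 := hT 1 3
  have e11 : dep Regime.communications 5 0 T 1 1 = T 0 0 := by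
    rw [dep_comm]
    simp [dep_zero_left, dep_zero_right]
  have e12 : dep Regime.communications 5 0 T 1 2 = T 0 0 + T 0 1 := by
    rw [dep_comm, e11]
    simp [dep_zero_left, h00]
  have e13 : dep Regime.communications 5 0 T 1 3 = T 0 0 + T 0 1 + T 0 2 := by
    rw [dep_comm, e12]
    simp only [dep_zero_left, Nat.zero_sub, ite_self]
    rw [max_eq_left, max_eq_left] <;> positivity
  have e14 : dep Regime.communications 5 0 T 1 4 = T 0 0 + T 0 1 + T 0 2 + T 0 3 := by
    rw [dep_comm, e13]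
    simp only [dep_zero_left, Nat.zero_sub, ite_self]
    rw [max_eq_left, max_eq_left] <;> positivity
  have e15 : dep Regime.communications 5 0 T 1 5 = T 0 0 + T 0 1 + T 0 2 + T 0 3 + T 0 4 := by
    rw [dep_comm, e14]
    simp only [dep_zero_left, Nat.zero_sub, ite_self]
    rw [max_eq_left, max_eq_left] <;> positivity
  have e21 : dep Regime.communications 5 0 T 2 1 = T 0 0 + T 0 1 + T 1 0 := by
    rw [dep_comm, dep_zero_right, e11]
    norm_num [e12]
    exact ⟨by positivity, h01⟩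
  have e22 : dep Regime.communications 5 0 T 2 2 =
      max (T 0 0 + T 0 1 + T 1 0) (T 0 0 + T 0 1 + T 0 2) + T 1 1 := by
    rw [dep_comm, e21, e12]
    norm_num [e13]
    rw [max_assoc, max_eq_right (a := T 0 0 + T 0 1)]
    linarith
  have e23 : dep Regime.communications 5 0 T 2 3 =
      max (max (T 0 0 + T 0 1 + T 1 0) (T 0 0 + T 0 1 + T 0 2) + T 1 1)
        (T 0 0 + T 0 1 + T 0 2 + T 0 3) + T 1 2 := by
    rw [dep_comm, e22, e13]
    norm_num [e14]
    rw [max_assoc, max_eq_right (a := T 0 0 + T 0 1 + T 0 2)]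
    linarith
  have e24 : dep Regime.communications 5 0 T 2 4 =
      max (max (max (T 0 0 + T 0 1 + T 1 0) (T 0 0 + T 0 1 + T 0 2) + T 1 1)
        (T 0 0 + T 0 1 + T 0 2 + T 0 3) + T 1 2) (T 0 0 + T 0 1 + T 0 2 + T 0 3 + T 0 4)
        + T 1 3 := by
    rw [dep_comm, e23, e14]
    norm_num [e15]
    rw [max_assoc, max_eq_right (a := T 0 0 + T 0 1 + T 0 2 + T 0 3)]
    linarith
  rw [dep_comm, e24, e15]
  norm_num
  right
  positivity

/-- The works of the two jobs as a doubly indexed family of processing times. -/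
noncomputable def tim (s : Fin 5 → ℝ) (x : Fin 2 → Fin 5 → ℝ) (i j : ℕ) : ℝ :=
  if h : i < 2 ∧ j < 5 then x ⟨i, h.1⟩ ⟨j, h.2⟩ / s ⟨j, h.2⟩ else 0

lemma tim_nonneg (s : Fin 5 → ℝ) (hs : ∀ j, 0 < s j) (x : Fin 2 → Fin 5 → ℝ)
    (hx : ∀ i j, 0 ≤ x i j) (i j : ℕ) : 0 ≤ tim s x i j := by
  unfold tim
  split_ifs with h
  · exact div_nonneg (hx _ _) (hs _).le
  · exact le_rfl

lemma makespan_eq (s : Fin 5 → ℝ) (hs : ∀ j, 0 < s j) (x : Fin 2 → Fin 5 → ℝ)
    (hx : ∀ i j, 0 ≤ x i j) :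
    makespan Regime.communications 2 5 0 s x =
      max (max (max (max (tim s x 0 0 + tim s x 0 1 + tim s x 1 0)
        (tim s x 0 0 + tim s x 0 1 + tim s x 0 2) + tim s x 1 1)
        (tim s x 0 0 + tim s x 0 1 + tim s x 0 2 + tim s x 0 3) + tim s x 1 2)
        (tim s x 0 0 + tim s x 0 1 + tim s x 0 2 + tim s x 0 3 + tim s x 0 4) + tim s x 1 3)
        (tim s x 0 0 + tim s x 0 1 + tim s x 0 2 + tim s x 0 3 + tim s x 0 4) + tim s x 1 4 := by
  have := dep25 (tim s x) (tim_nonneg s hs x hx)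
  unfold makespan
  exact this

lemma tim_le (s : Fin 5 → ℝ) (hs : ∀ j, 0 < s j) (x : Fin 2 → Fin 5 → ℝ) (c : ℝ)
    (hx : ∀ i j, x i j ≤ c) (i : Fin 2) (j : Fin 5) : tim s x i j ≤ c * (s j)⁻¹ := by
  unfold tim
  rw [dif_pos ⟨i.2, j.2⟩, div_eq_mul_inv]
  exact mul_le_mul_of_nonneg_right (hx _ _) (inv_nonneg.2 (hs _).le)

lemma tim_ge (s : Fin 5 → ℝ) (hs : ∀ j, 0 < s j) (x : Fin 2 → Fin 5 → ℝ) (c : ℝ)
    (hx : ∀ i j, c ≤ x i j) (i : Fin 2) (j : Fin 5) : c * (s j)⁻¹ ≤ tim s x i j := by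
  unfold tim
  rw [dif_pos ⟨i.2, j.2⟩, div_eq_mul_inv]
  exact mul_le_mul_of_nonneg_right (hx _ _) (inv_nonneg.2 (hs _).le)

lemma makespan_ge (s : Fin 5 → ℝ) (hs : ∀ j, 0 < s j) (x : Fin 2 → Fin 5 → ℝ) (c : ℝ)
    (hc : 0 ≤ c) (hx : ∀ i j, c ≤ x i j) :
    c * (2 * (s 0)⁻¹ + 2 * (s 1)⁻¹ + (s 2)⁻¹ + (s 3)⁻¹ + (s 4)⁻¹) ≤
      makespan Regime.communications 2 5 0 s x := by
  rw [makespan_eq s hs x (fun i j => hc.trans (hx i j))]
  have h00 := tim_ge s hs x c hx 0 0
  have h01 := tim_ge s hs x c hx 0 1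
  have h10 := tim_ge s hs x c hx 1 0
  have h11 := tim_ge s hs x c hx 1 1
  have h12 := tim_ge s hs x c hx 1 2
  have h13 := tim_ge s hs x c hx 1 3
  have h14 := tim_ge s hs x c hx 1 4
  simp only [Fin.val_zero, Fin.val_one] at h00 h01 h10 h11 h12 h13 h14
  have e2 : ((2 : Fin 5) : ℕ) = 2 := rfl
  have e3 : ((3 : Fin 5) : ℕ) = 3 := rfl
  have e4 : ((4 : Fin 5) : ℕ) = 4 := rfl
  rw [e2] at h12
  rw [e3] at h13
  rw [e4] at h14
  have k1 := le_max_left (tim s x 0 0 + tim s x 0 1 + tim s x 1 0)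
    (tim s x 0 0 + tim s x 0 1 + tim s x 0 2)
  have k2 := le_max_left (max (tim s x 0 0 + tim s x 0 1 + tim s x 1 0)
        (tim s x 0 0 + tim s x 0 1 + tim s x 0 2) + tim s x 1 1)
        (tim s x 0 0 + tim s x 0 1 + tim s x 0 2 + tim s x 0 3)
  have k3 := le_max_left (max (max (tim s x 0 0 + tim s x 0 1 + tim s x 1 0)
        (tim s x 0 0 + tim s x 0 1 + tim s x 0 2) + tim s x 1 1)
        (tim s x 0 0 + tim s x 0 1 + tim s x 0 2 + tim s x 0 3) + tim s x 1 2)
        (tim s x 0 0 + tim s x 0 1 + tim s x 0 2 + tim s x 0 3 + tim s x 0 4)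
  have k4 := le_max_left (max (max (max (tim s x 0 0 + tim s x 0 1 + tim s x 1 0)
        (tim s x 0 0 + tim s x 0 1 + tim s x 0 2) + tim s x 1 1)
        (tim s x 0 0 + tim s x 0 1 + tim s x 0 2 + tim s x 0 3) + tim s x 1 2)
        (tim s x 0 0 + tim s x 0 1 + tim s x 0 2 + tim s x 0 3 + tim s x 0 4) + tim s x 1 3)
        (tim s x 0 0 + tim s x 0 1 + tim s x 0 2 + tim s x 0 3 + tim s x 0 4)
  nlinarith [h00, h01, h10, h11, h12, h13, h14, k1, k2, k3, k4]

lemma makespan_le (s : Fin 5 → ℝ) (hs : ∀ j, 0 < s j) (x : Fin 2 → Fin 5 → ℝ) (c : ℝ)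
    (hx0 : ∀ i j, 0 ≤ x i j) (hx : ∀ i j, x i j ≤ c) (p q : ℝ) (hp : 0 ≤ p) (hq : 0 ≤ q)
    (hc : 0 ≤ c)
    (h0 : (s 0)⁻¹ ≤ p) (h1 : (s 1)⁻¹ ≤ q) (h2 : (s 2)⁻¹ ≤ p) (h3 : (s 3)⁻¹ ≤ q)
    (h4 : (s 4)⁻¹ ≤ p) :
    makespan Regime.communications 2 5 0 s x ≤ c * (4 * p + 3 * q) := by
  rw [makespan_eq s hs x hx0]
  have e2 : ((2 : Fin 5) : ℕ) = 2 := rfl
  have e3 : ((3 : Fin 5) : ℕ) = 3 := rfl
  have e4 : ((4 : Fin 5) : ℕ) = 4 := rfl
  have t0 : ∀ i : Fin 2, tim s x i 0 ≤ c * p := fun i =>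
    (tim_le s hs x c hx i 0).trans (mul_le_mul_of_nonneg_left h0 hc)
  have t1 : ∀ i : Fin 2, tim s x i 1 ≤ c * q := fun i =>
    (tim_le s hs x c hx i 1).trans (mul_le_mul_of_nonneg_left h1 hc)
  have t2 : ∀ i : Fin 2, tim s x i 2 ≤ c * p := fun i =>
    (tim_le s hs x c hx i 2).trans (mul_le_mul_of_nonneg_left h2 hc)
  have t3 : ∀ i : Fin 2, tim s x i 3 ≤ c * q := fun i =>
    (tim_le s hs x c hx i 3).trans (mul_le_mul_of_nonneg_left h3 hc)
  have t4 : ∀ i : Fin 2, tim s x i 4 ≤ c * p := fun i =>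
    (tim_le s hs x c hx i 4).trans (mul_le_mul_of_nonneg_left h4 hc)
  have a0 := t0 0
  have a1 := t1 0
  have a2 := t2 0
  have a3 := t3 0
  have a4 := t4 0
  have b0 := t0 1
  have b1 := t1 1
  have b2 := t2 1
  have b3 := t3 1
  have b4 := t4 1
  simp only [Fin.val_zero, Fin.val_one] at a0 a1 a2 a3 a4 b0 b1 b2 b3 b4
  have hcp : 0 ≤ c * p := mul_nonneg hc hp
  have hcq : 0 ≤ c * q := mul_nonneg hc hq
  have k1 : max (tim s x 0 0 + tim s x 0 1 + tim s x 1 0)
    (tim s x 0 0 + tim s x 0 1 + tim s x 0 2) ≤ 2 * (c * p) + c * q := by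
    apply max_le <;> linarith
  have k2 : max (max (tim s x 0 0 + tim s x 0 1 + tim s x 1 0)
        (tim s x 0 0 + tim s x 0 1 + tim s x 0 2) + tim s x 1 1)
        (tim s x 0 0 + tim s x 0 1 + tim s x 0 2 + tim s x 0 3) ≤ 2 * (c * p) + 2 * (c * q) := by
    apply max_le <;> linarith
  have k3 : max (max (max (tim s x 0 0 + tim s x 0 1 + tim s x 1 0)
        (tim s x 0 0 + tim s x 0 1 + tim s x 0 2) + tim s x 1 1)
        (tim s x 0 0 + tim s x 0 1 + tim s x 0 2 + tim s x 0 3) + tim s x 1 2)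
        (tim s x 0 0 + tim s x 0 1 + tim s x 0 2 + tim s x 0 3 + tim s x 0 4) ≤
        3 * (c * p) + 2 * (c * q) := by
    apply max_le <;> linarith
  have k4 : max (max (max (max (tim s x 0 0 + tim s x 0 1 + tim s x 1 0)
        (tim s x 0 0 + tim s x 0 1 + tim s x 0 2) + tim s x 1 1)
        (tim s x 0 0 + tim s x 0 1 + tim s x 0 2 + tim s x 0 3) + tim s x 1 2)
        (tim s x 0 0 + tim s x 0 1 + tim s x 0 2 + tim s x 0 3 + tim s x 0 4) + tim s x 1 3)
        (tim s x 0 0 + tim s x 0 1 + tim s x 0 2 + tim s x 0 3 + tim s x 0 4) ≤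
        3 * (c * p) + 3 * (c * q) := by
    apply max_le <;> linarith
  linarith

lemma bowl_bound (a b c : ℝ) (ha : 0 < a) (hb : 0 < b) (hc : 0 < c) (hac : a ≤ c) (hbc : b ≤ c)
    (h : 2 * a + 2 * b + c = 1) : 35 ≤ 3 * a⁻¹ + 3 * b⁻¹ + c⁻¹ := by
  have key : ∀ t : ℝ, 0 < t → 10 - 25 * t ≤ t⁻¹ := by
    intro t ht
    rw [← one_div, le_div_iff₀ ht]
    nlinarith [sq_nonneg (5 * t - 1)]
  have h1 := key a ha
  have h2 := key b hb
  have h3 := key c hc
  linarith

/-- The product law of the works. -/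
noncomputable def law (ν : Measure ℝ) : Measure (Fin 2 → Fin 5 → ℝ) :=
  Measure.pi (fun _ : Fin 2 => Measure.pi (fun _ : Fin 5 => ν))

instance (ν : Measure ℝ) [IsProbabilityMeasure ν] : IsProbabilityMeasure (law ν) := by
  unfold law; infer_instance

lemma ae_near (ν : Measure ℝ) [IsProbabilityMeasure ν] (h : ∀ᵐ x ∂ν, |x - 1| ≤ 1 / 2500) :
    ∀ᵐ x ∂(law ν), ∀ i j, |x i j - 1| ≤ 1 / 2500 := by
  rw [ae_all_iff]
  intro i
  have h1 : ∀ᵐ y ∂(Measure.pi (fun _ : Fin 5 => ν)), ∀ j, |y j - 1| ≤ 1 / 2500 := by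
    rw [ae_all_iff]
    intro j
    exact (Measure.quasiMeasurePreserving_eval (fun _ : Fin 5 => ν) j).ae h
  exact (Measure.quasiMeasurePreserving_eval
    (fun _ : Fin 2 => Measure.pi (fun _ : Fin 5 => ν)) i).ae h1

lemma tim_meas (s : Fin 5 → ℝ) (i j : ℕ) : Measurable (fun x => tim s x i j) := by
  unfold tim
  split_ifs with h
  · exact ((measurable_pi_apply _).comp (measurable_pi_apply _)).div_const _
  · exact measurable_const

lemma makespan_integrable (ν : Measure ℝ) [IsProbabilityMeasure ν]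
    (h : ∀ᵐ x ∂ν, |x - 1| ≤ 1 / 2500) (s : Fin 5 → ℝ) (hs : ∀ j, 0 < s j) :
    Integrable (makespan Regime.communications 2 5 0 s) (law ν) := by
  have hae := ae_near ν h
  set M : ℝ := (s 0)⁻¹ + (s 1)⁻¹ + (s 2)⁻¹ + (s 3)⁻¹ + (s 4)⁻¹ with hM
  have p0 := inv_pos.2 (hs 0)
  have p1 := inv_pos.2 (hs 1)
  have p2 := inv_pos.2 (hs 2)
  have p3 := inv_pos.2 (hs 3)
  have p4 := inv_pos.2 (hs 4)
  apply Integrable.of_bound (C := 2 * (4 * M + 3 * M))
  · have hm : Measurable (fun x =>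
      max (max (max (max (tim s x 0 0 + tim s x 0 1 + tim s x 1 0)
        (tim s x 0 0 + tim s x 0 1 + tim s x 0 2) + tim s x 1 1)
        (tim s x 0 0 + tim s x 0 1 + tim s x 0 2 + tim s x 0 3) + tim s x 1 2)
        (tim s x 0 0 + tim s x 0 1 + tim s x 0 2 + tim s x 0 3 + tim s x 0 4) + tim s x 1 3)
        (tim s x 0 0 + tim s x 0 1 + tim s x 0 2 + tim s x 0 3 + tim s x 0 4) + tim s x 1 4) := by
      have m := tim_meas s
      have m00 := m 0 0
      have m01 := m 0 1
      have m02 := m 0 2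
      have m03 := m 0 3
      have m04 := m 0 4
      have m10 := m 1 0
      have m11 := m 1 1
      have m12 := m 1 2
      have m13 := m 1 3
      have m14 := m 1 4
      fun_prop
    refine hm.aestronglyMeasurable.congr ?_
    filter_upwards [hae] with x hx
    rw [makespan_eq s hs x]
    intro i j
    have := abs_le.1 (hx i j)
    linarith
  · filter_upwards [hae] with x hx
    have hx0 : ∀ i j, 1 / 2 ≤ x i j := by
      intro i j
      have := abs_le.1 (hx i j)
      linarith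
    have hx2 : ∀ i j, x i j ≤ 2 := by
      intro i j
      have := abs_le.1 (hx i j)
      linarith
    have hu := makespan_le s hs x 2 (fun i j => by linarith [hx0 i j]) hx2 M M (by positivity)
      (by positivity) (by norm_num) (by linarith) (by linarith) (by linarith) (by linarith)
      (by linarith)
    have hl := makespan_ge s hs x (1 / 2) (by norm_num) hx0
    rw [Real.norm_eq_abs, abs_of_nonneg]
    · exact hu
    · refine le_trans ?_ hl
      positivity

/-- An allocation that is not bowl-shaped. -/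
noncomputable def alt : Fin 5 → ℝ := ![8 / 41, 17 / 82, 8 / 41, 17 / 82, 8 / 41]

lemma alt_alloc : IsAllocation 5 alt := by
  constructor
  · intro j
    fin_cases j <;> simp [alt]
  · simp [alt, Fin.sum_univ_five]
    norm_num

lemma strict (ν : Measure ℝ) [IsProbabilityMeasure ν] (h : ∀ᵐ x ∂ν, |x - 1| ≤ 1 / 2500)
    (s : Fin 5 → ℝ) (hs : IsAllocation 5 s) (hb : IsBowl 5 s) :
    expMakespan Regime.communications 2 5 0 ν alt < expMakespan Regime.communications 2 5 0 ν s := by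
  have hae := ae_near ν h
  have hlow : (1 - 1 / 2500) * 35 ≤ expMakespan Regime.communications 2 5 0 ν s := by
    obtain ⟨hpos, hsum⟩ := hs
    obtain ⟨hsym, hmon⟩ := hb
    have e1 : s 0 = s 4 := hsym 0
    have e2 : s 1 = s 3 := hsym 1
    have m1 : s 0 ≤ s 2 := hmon 0 2 (by decide) (by decide)
    have m2 : s 1 ≤ s 2 := hmon 1 2 (by decide) (by decide)
    rw [Fin.sum_univ_five] at hsum
    have hb := bowl_bound (s 0) (s 1) (s 2) (hpos 0) (hpos 1) (hpos 2) m1 m2 (by linarith)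
    have h1 : ∫ _x : Fin 2 → Fin 5 → ℝ, ((1 - 1 / 2500) * 35 : ℝ) ∂(law ν) ≤
        ∫ x, makespan Regime.communications 2 5 0 s x ∂(law ν) := by
      apply integral_mono_ae (integrable_const _) (makespan_integrable ν h s hpos)
      filter_upwards [hae] with x hx
      have hx0 : ∀ i j, (1 - 1 / 2500 : ℝ) ≤ x i j := by
        intro i j
        have := abs_le.1 (hx i j)
        linarith
      refine le_trans ?_ (makespan_ge s hpos x (1 - 1 / 2500) (by norm_num) hx0)
      rw [← e2, ← e1]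
      apply mul_le_mul_of_nonneg_left _ (by norm_num)
      linarith
    rw [integral_const] at h1
    have h2 : (1 - 1 / 2500) * 35 ≤ ∫ x, makespan Regime.communications 2 5 0 s x ∂(law ν) := by
      simpa using h1
    exact h2
  have hup : expMakespan Regime.communications 2 5 0 ν alt ≤
      (1 + 1 / 2500) * (4 * (41 / 8) + 3 * (82 / 17)) := by
    have h1 : ∫ x, makespan Regime.communications 2 5 0 alt x ∂(law ν) ≤
        ∫ _x : Fin 2 → Fin 5 → ℝ, ((1 + 1 / 2500) * (4 * (41 / 8) + 3 * (82 / 17)) : ℝ) ∂(law ν) := by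
      apply integral_mono_ae (makespan_integrable ν h alt alt_alloc.1) (integrable_const _)
      filter_upwards [hae] with x hx
      have hx0 : ∀ i j, (0 : ℝ) ≤ x i j := by
        intro i j
        have := abs_le.1 (hx i j)
        linarith
      have hx1 : ∀ i j, x i j ≤ (1 + 1 / 2500 : ℝ) := by
        intro i j
        have := abs_le.1 (hx i j)
        linarith
      apply makespan_le alt alt_alloc.1 x (1 + 1 / 2500) hx0 hx1 (41 / 8) (82 / 17) (by norm_num)
        (by norm_num) (by norm_num) <;> simp [alt]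
    rw [integral_const] at h1
    have h2 : ∫ x, makespan Regime.communications 2 5 0 alt x ∂(law ν) ≤
        (1 + 1 / 2500) * (4 * (41 / 8) + 3 * (82 / 17)) := by
      simpa using h1
    exact h2
  refine lt_of_le_of_lt hup (lt_of_lt_of_le ?_ hlow)
  norm_num

/-- The claim of Q1 is false. Moreover, for two jobs, five stations, no buffer places and
communications blocking, no optimal allocation is bowl-shaped as soon as the common law of the
works is carried by the interval `[1 - 1/2500, 1 + 1/2500]`. -/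
theorem result : ¬ BowlConjecture ∧
    ∀ ν : Measure ℝ, IsProbabilityMeasure ν → (∀ᵐ x ∂ν, |x - 1| ≤ 1 / 2500) →
      ∀ s, IsOptimal Regime.communications 2 5 0 ν s → ¬ IsBowl 5 s := by
  have main : ∀ ν : Measure ℝ, IsProbabilityMeasure ν → (∀ᵐ x ∂ν, |x - 1| ≤ 1 / 2500) →
      ∀ s, IsOptimal Regime.communications 2 5 0 ν s → ¬ IsBowl 5 s := by
    intro ν _ h s hs hb
    exact absurd (hs.2 alt alt_alloc) (not_le.2 (strict ν h s hs.1 hb))
  refine ⟨?_, main⟩
  intro H
  obtain ⟨s, hs, hb⟩ := H 2 5 (by norm_num) (by norm_num) (Measure.dirac 1) inferInstance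
    (by simp) (integrable_dirac (by simp)) Regime.communications 0
  have hd : ∀ᵐ x ∂(Measure.dirac (1 : ℝ)), |x - 1| ≤ 1 / 2500 := by
    rw [ae_dirac_iff (measurableSet_le (by fun_prop) (by fun_prop))]
    norm_num
  exact main (Measure.dirac 1) inferInstance hd s hs hb

end Pool.Agent.Results.MP_eb4cdf_pr.BowlDisproof
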